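import Pool.Agent.H31.Q.Defs
import Pool.Agent.H77.Q.Defs
import Pool.Agent.H45.TR.Minor

set_option autoImplicit false

/-!
Sides of a rooted minor (MP_a46c6f_co, full Q1, note 7214 (0)): the sides of the words of a code give
the rooted sides of its minors at a full state.
-/

namespace Pool.Agent.H66.FQ

open Finset Pool.Agent.H98.Code Pool.Agent.H26.TR Pool.Agent.H45.TR

variable {V : Type} [Fintype V] [DecidableEq V]
variable {L : Submodule (ZMod 2) (V → K)} {e : V} {D : V → K} {P Q : Finset (Finset V)}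
  {h : Finset V → V} {SL : (V → K) → Finset V → Prop}

/-- the word respects the smoothing -/
def Sm (D : V → K) (Q : Finset (Finset V)) (h : Finset V → V) (u : V → K) : Prop :=
  ∀ v, v ∉ Set.range (Subtype.val : W Q → V) → kf (u v) (sg D Q h v) = 0

/-- the rooted sides of the minor -/
def SB (L : Submodule (ZMod 2) (V → K)) (e : V) (D : V → K) (Q : Finset (Finset V))
    (h : Finset V → V) (SL : (V → K) → Finset V → Prop) (u : W Q → K) (Y : Finset (W Q)) : Prop :=
  ∃ (u' : V → K) (F : Finset V), u' ∈ L ∧ Sm D Q h u' ∧ u = (fun w => u' w.1) ∧ u' e = 0 ∧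
    SL u' F ∧ e ∉ F ∧ (∀ v ∈ F, ∀ M ∈ Q, v ∉ M) ∧ ∀ w, w ∈ Y ↔ w.1 ∈ F

theorem Sm.add {u w : V → K} (hu : Sm D Q h u) (hw : Sm D Q h w) : Sm D Q h (u + w) := by
  intro v hv
  rw [Pi.add_apply, kf_add_left, hu v hv, hw v hv, add_zero]

omit [Fintype V] in
/-- a word with the same letters or `0` off the range respects the smoothing -/
theorem Sm.of_le {u k : V → K} (hu : Sm D Q h u)
    (hk : ∀ v, v ∉ Set.range (Subtype.val : W Q → V) → k v = 0 ∨ k v = u v) : Sm D Q h k := by
  intro v hv
  rcases hk v hv with h1 | h1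
  · rw [h1, kf_zero_left]
  · rw [h1]; exact hu v hv

/-- a word which is `0` on the kept vertices and respects the smoothing is `0` -/
theorem lift_zero (hiso : ∀ u ∈ L, ∀ w ∈ L, form u w = 0) (hP : Parts L e D P) (hQ : Q ⊆ P)
    (hl : ∀ v, v ≠ e → (D v).1 = 1) (hh : ∀ M ∈ Q, h M ∈ M) {k : V → K} (hk : k ∈ L)
    (hke : k e = 0) (hks : Sm D Q h k) (h0 : ∀ v, (∀ M ∈ Q, v ∉ M) → k v = 0) : k = 0 := by
  have hke1 : (k e).1 = 0 := by rw [hke]; rfl
  have hKD : KD L D e k := by
    refine ⟨hk, ?_, Or.inl hke⟩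
    intro v hv
    by_cases hvW : v ∈ Set.range (Subtype.val : W Q → V)
    · exact Or.inl (h0 v ((mem_range_iff Q v).1 hvW))
    · exact le_D hiso hP hQ hl hh hk hke1 hks hvW
  funext v
  by_cases hvW : ∀ M ∈ Q, v ∉ M
  · exact h0 v hvW
  · push Not at hvW
    obtain ⟨M, hM, hvM⟩ := hvW
    have hh0 : k (h M) = 0 := eq_zero_h hiso hP hQ hl hh hk hke1 hks hM
    rcases hP.union k hKD M (hQ hM) with h1 | h1
    · exact absurd hh0 (Pool.Agent.H26.TR.mem_sup.1 (h1 (hh M hM))).2
    · by_contra hne
      have hve : v ≠ e := fun h0 => hP.nmem M (hQ hM) (h0 ▸ hvM)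
      exact Finset.disjoint_left.1 h1 hvM (Pool.Agent.H26.TR.mem_sup.2 ⟨hve, hne⟩)

/-- a splitting of a word which respects the smoothing is a splitting in the minor -/
theorem split_down (hiso : ∀ u ∈ L, ∀ w ∈ L, form u w = 0) (hP : Parts L e D P) (hQ : Q ⊆ P)
    (hl : ∀ v, v ≠ e → (D v).1 = 1) (hh : ∀ M ∈ Q, h M ∈ M) (heW : ∀ M ∈ Q, e ∉ M)
    {u : V → K} (hus : Sm D Q h u) (hue : u e = 0) {g : V} (hs : Splits L u g) :
    ∃ g', Splits (N L D Q h) (fun w : W Q => u w.1) g' := by
  classical
  obtain ⟨c₁, hc₁, c₂, hc₂, hsum, hg1, hg2, hd⟩ := hs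
  have hv1 : ∀ v, v ≠ g → c₁ v = 0 ∨ c₁ v = u v := by
    intro v hv
    rcases hd v hv with h1 | h1
    · exact Or.inl h1
    · right
      rw [← hsum, Pi.add_apply, h1, add_zero]
  have hv2 : ∀ v, v ≠ g → c₂ v = 0 ∨ c₂ v = u v := by
    intro v hv
    rcases hd v hv with h1 | h1
    · right
      rw [← hsum, Pi.add_apply, h1, zero_add]
    · exact Or.inl h1
  have hgW : g ∈ Set.range (Subtype.val : W Q → V) := by
    by_contra hgW
    obtain ⟨M, hM, hgM⟩ := (nmem_range_iff Q g).1 hgW
    have hge : g ≠ e := fun h0 => heW M hM (h0 ▸ hgM)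
    have key : ∀ c : V → K, c ∈ L → c g = z → (∀ v, v ≠ g → c v = 0 ∨ c v = u v) →
        g ≠ h M ∧ c (h M) ≠ 0 := by
      intro c hc hcg hcv
      have hce : c e = 0 := by
        rcases hcv e (Ne.symm hge) with h1 | h1
        · exact h1
        · rw [h1, hue]
      have h0 := hiso c hc _ (hP.word M (hQ hM))
      unfold form at h0
      rw [← Finset.add_sum_erase _ _ (Finset.mem_univ g)] at h0
      have hg3 : kf (c g) (pw D e M g) = 1 := by
        unfold pw
        rw [if_neg hge, if_pos hgM, hcg, kf_z_left]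
        exact hl g hge
      rw [hg3] at h0
      by_contra hcon
      have hrest : ∑ x ∈ Finset.univ.erase g, kf (c x) (pw D e M x) = 0 := by
        apply Finset.sum_eq_zero
        intro x hx
        have hxg : x ≠ g := Finset.ne_of_mem_erase hx
        by_cases hxe : x = e
        · rw [hxe, hce, kf_zero_left]
        · unfold pw
          rw [if_neg hxe]
          by_cases hxM : x ∈ M
          · rw [if_pos hxM]
            by_cases hxh : x = h M
            · have hc0 : c (h M) = 0 := by
                by_contra hne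
                apply hcon
                exact ⟨fun h1 => hxg (hxh.trans h1.symm), hne⟩
              rw [hxh, hc0, kf_zero_left]
            · rcases hcv x hxg with h1 | h1
              · rw [h1, kf_zero_left]
              · rw [h1, ← sg_ne hP hQ hh hM hxM hxh]
                exact hus x ((nmem_range_iff Q x).2 ⟨M, hM, hxM⟩)
          · rw [if_neg hxM, kf_zero_right]
      rw [hrest] at h0
      exact absurd h0 (by decide)
    obtain ⟨h1, h2⟩ := key c₁ hc₁ hg1 hv1
    obtain ⟨_, h3⟩ := key c₂ hc₂ hg2 hv2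
    rcases hd (h M) (Ne.symm h1) with h4 | h4
    · exact h2 h4
    · exact h3 h4
  obtain ⟨g', rfl⟩ := hgW
  have hin : ∀ c : V → K, (∀ v, v ≠ (g' : V) → c v = 0 ∨ c v = u v) →
      ∀ v, v ∉ Set.range (Subtype.val : W Q → V) → kf (c v) (sg D Q h v) = 0 := by
    intro c hc v hv
    have hne : v ≠ (g' : V) := by
      rintro rfl
      exact hv ⟨g', rfl⟩
    rcases hc v hne with h1 | h1
    · rw [h1, kf_zero_left]
    · rw [h1]; exact hus v hv
  refine ⟨g', fun w => c₁ w, ⟨c₁, hc₁, hin c₁ hv1, rfl⟩, fun w => c₂ w,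
    ⟨c₂, hc₂, hin c₂ hv2, rfl⟩, ?_, hg1, hg2, ?_⟩
  · funext w
    exact congrFun hsum w
  · intro w hw
    exact hd w (fun h0 => hw (Subtype.ext h0))

/-- a word which respects the smoothing, is `0` at `e` and `z`-free on the kept vertices is `z`-free -/
theorem zfree_lift (hP : Parts L e D P) (hQ : Q ⊆ P)
    (hl : ∀ v, v ≠ e → (D v).1 = 1) {u : V → K} (hus : Sm D Q h u)
    (haz : ZFree (fun w : W Q => u w.1)) : ZFree u := by
  intro v
  by_cases hvW : v ∈ Set.range (Subtype.val : W Q → V)
  · obtain ⟨w, rfl⟩ := hvW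
    exact haz w
  · obtain ⟨M, hM, hvM⟩ := (nmem_range_iff Q v).1 hvW
    have hve : v ≠ e := fun h0 => hP.nmem M (hQ hM) (h0 ▸ hvM)
    have h1 := hus v hvW
    rw [kf_eq_zero_iff _ _ (sg_ne_zero hl hve)] at h1
    intro h2
    rcases h1 with h1 | h1
    · rw [h2] at h1; exact absurd h1 (by decide)
    · have h3 := sg_fst (Q := Q) (h := h) hl hve
      rw [← h1, h2] at h3
      exact absurd h3 (by decide)

/-- **the rooted sides of the minor** -/
theorem rsides (hS : Pool.Agent.H31.Q.Sides L SL) (hiso : ∀ u ∈ L, ∀ w ∈ L, form u w = 0)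
    (hP : Parts L e D P) (hQ : Q ⊆ P) (hl : ∀ v, v ≠ e → (D v).1 = 1) (hh : ∀ M ∈ Q, h M ∈ M)
    (heW : ∀ M ∈ Q, e ∉ M) :
    Pool.Agent.H77.Q.RSides (N L D Q h) (⟨e, heW⟩ : W Q) (SB L e D Q h SL) := by
  classical
  have hr : ∀ v, v ∉ Set.range (Subtype.val : W Q → V) → v ≠ e := by
    intro v hv h0
    exact hv ((mem_range_iff Q v).2 (h0 ▸ heW))
  refine ⟨?_, ?_, ?_, ?_, ?_⟩
  · rintro u Y ⟨u', F, h1, h2, h3, h4, h5, h6, h7, h8⟩ hY
    exact h6 ((h8 _).1 hY)
  · rintro u Y ⟨u', F, h1, h2, h3, h4, h5, h6, h7, h8⟩ v hv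
    rw [h3]
    exact (hS.mem u' F h5).2 v.1 ((h8 v).1 hv)
  · -- existence
    rintro a ⟨u, hu, hus, rfl⟩ haz hae ha0 hirr
    have hue : u e = 0 := hae
    have hue1 : (u e).1 = 0 := by rw [hue]; rfl
    have hu0 : u ≠ 0 := by
      rintro rfl
      exact ha0 rfl
    have huz : ZFree u := zfree_lift hP hQ hl hus haz
    obtain ⟨F, hF, heF⟩ : ∃ F, SL u F ∧ e ∉ F := by
      obtain ⟨F, hF⟩ := hS.ex u hu
      by_cases he : e ∈ F
      · obtain ⟨F', hF', hF''⟩ := hS.compl u F hF
        exact ⟨F', hF', fun h0 => ((hF'' e).1 h0).2 he⟩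
      · exact ⟨F, hF, he⟩
    by_cases hF0 : F = ∅
    · left
      obtain ⟨g, hg⟩ := hS.wc u (hF0 ▸ hF) huz hu0
      exact split_down hiso hP hQ hl hh heW hus hue hg
    by_cases hFW : ∀ v ∈ F, ∀ M ∈ Q, v ∉ M
    · right
      refine ⟨Finset.univ.filter fun w : W Q => w.1 ∈ F, ?_, u, F, hu, hus, rfl, hue, hF, heF, hFW,
        ?_⟩
      · obtain ⟨v, hv⟩ := Finset.nonempty_iff_ne_empty.2 hF0
        exact ⟨⟨v, hFW v hv⟩, Finset.mem_filter.2 ⟨Finset.mem_univ _, hv⟩⟩
      · intro w
        simp
    · left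
      push Not at hFW
      obtain ⟨v, hvF, M, hM, hvM⟩ := hFW
      have hve : v ≠ e := fun h0 => heF (h0 ▸ hvF)
      have huh : ∀ M ∈ Q, u (h M) = 0 := fun M hM =>
        eq_zero_h hiso hP hQ hl hh hu hue1 hus hM
      have huD : ∀ v, v ∉ Set.range (Subtype.val : W Q → V) → u v = 0 ∨ u v = D v :=
        fun v hv => le_D hiso hP hQ hl hh hu hue1 hus hv
      have hpl : ∀ v, u v ≠ 0 → pw D e M v = 0 ∨ pw D e M v = u v := by
        intro x hx
        have hxe : x ≠ e := fun h0 => hx (h0 ▸ hue)
        unfold pw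
        rw [if_neg hxe]
        by_cases hxM : x ∈ M
        · right
          rw [if_pos hxM]
          rcases huD x ((nmem_range_iff Q x).2 ⟨M, hM, hxM⟩) with h1 | h1
          · exact absurd h1 hx
          · exact h1.symm
        · left
          rw [if_neg hxM]
      obtain ⟨k, hk, k1, k2, k3, -, -⟩ := hS.part u F hF _ (hP.word M (hQ hM)) hpl
      have hpM : ∀ x ∈ M, pw D e M x = D x := by
        intro x hx
        have hxe : x ≠ e := fun h0 => hP.nmem M (hQ hM) (h0 ▸ hx)
        unfold pw
        rw [if_neg hxe, if_pos hx]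
      have hpnM : ∀ x, x ≠ e → x ∉ M → pw D e M x = 0 := by
        intro x hxe hx
        unfold pw
        rw [if_neg hxe, if_neg hx]
      have hkv : k v = D v := by rw [k1 v hvF, hpM v hvM]
      have hDne : ∀ x, x ≠ e → D x ≠ 0 := by
        intro x hx h0
        have := hl x hx
        rw [h0] at this
        exact absurd this (by decide)
      have hkv0 : k v ≠ 0 := by rw [hkv]; exact hDne v hve
      have huv : u v = 0 := (hS.mem u F hF).2 v hvF
      have hke : k e = 0 := k2 e hue heF
      -- values of `k`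
      have hkM : ∀ x ∈ M, k x = 0 ∨ k x = D x := by
        intro x hx
        by_cases hux : u x = 0
        · by_cases hxF : x ∈ F
          · right; rw [k1 x hxF, hpM x hx]
          · left; exact k2 x hux hxF
        · rcases k3 x hux with h1 | h1
          · exact Or.inl h1
          · rcases huD x ((nmem_range_iff Q x).2 ⟨M, hM, hx⟩) with h2 | h2
            · exact absurd h2 hux
            · right; rw [h1, h2]
      have hknM : ∀ x, x ≠ e → x ∉ M → k x = 0 ∨ k x = u x := by
        intro x hxe hx
        by_cases hux : u x = 0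
        · left
          by_cases hxF : x ∈ F
          · rw [k1 x hxF, hpnM x hxe hx]
          · exact k2 x hux hxF
        · exact k3 x hux
      have hknW : ∀ x, (∀ M ∈ Q, x ∉ M) → k x = 0 ∨ k x = u x := by
        intro x hx
        by_cases hxe : x = e
        · left; rw [hxe, hke]
        · exact hknM x hxe (hx M hM)
      by_cases hkh : k (h M) = 0
      · exfalso
        have hks : Sm D Q h k := by
          intro x hx
          have hxe := hr x hx
          by_cases hxM : x ∈ M
          · by_cases hxh : x = h M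
            · rw [hxh, hkh, kf_zero_left]
            · rw [sg_ne hP hQ hh hM hxM hxh]
              rcases hkM x hxM with h1 | h1
              · rw [h1, kf_zero_left]
              · rw [h1, kf_self]
          · rcases hknM x hxe hxM with h1 | h1
            · rw [h1, kf_zero_left]
            · rw [h1]; exact hus x hx
        rcases hirr (fun w => k w.1) ⟨k, hk, hks, rfl⟩ (fun w => hknW w.1 w.2) with h1 | h1
        · have h2 := lift_zero hiso hP hQ hl hh hk hke hks
            (fun x hx => congrFun h1 (⟨x, hx⟩ : W Q))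
          exact hkv0 (congrFun h2 v)
        · have h2 := lift_zero hiso hP hQ hl hh (L.add_mem hk hu)
            (by rw [Pi.add_apply, hke, hue, add_zero]) (hks.add hus) (fun x hx => by
              have h3 : k x = u x := congrFun h1 (⟨x, hx⟩ : W Q)
              rw [Pi.add_apply, h3, k_add_self])
          have h3 := congrFun h2 v
          rw [Pi.add_apply, huv, add_zero] at h3
          exact hkv0 h3
      · -- splits at `e`
        have hkh' : k (h M) = D (h M) := (hkM _ (hh M hM)).resolve_left hkh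
        set l : V → K := k + pw D e M with hldef
        have hlL : l ∈ L := L.add_mem hk (hP.word M (hQ hM))
        have hle : l e = z := by
          rw [hldef, Pi.add_apply, hke, zero_add]
          unfold pw
          rw [if_pos rfl]
        have hlM : ∀ x ∈ M, l x = 0 ∨ l x = D x := by
          intro x hx
          rw [hldef, Pi.add_apply, hpM x hx]
          rcases hkM x hx with h1 | h1
          · right; rw [h1, zero_add]
          · left; rw [h1, k_add_self]
        have hlh : l (h M) = 0 := by
          rw [hldef, Pi.add_apply, hpM _ (hh M hM), hkh', k_add_self]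
        have hlnM : ∀ x, x ≠ e → x ∉ M → l x = 0 ∨ l x = u x := by
          intro x hxe hx
          rw [hldef, Pi.add_apply, hpnM x hxe hx, add_zero]
          exact hknM x hxe hx
        have hls : Sm D Q h l := by
          intro x hx
          have hxe := hr x hx
          by_cases hxM : x ∈ M
          · by_cases hxh : x = h M
            · rw [hxh, hlh, kf_zero_left]
            · rw [sg_ne hP hQ hh hM hxM hxh]
              rcases hlM x hxM with h1 | h1
              · rw [h1, kf_zero_left]
              · rw [h1, kf_self]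
          · rcases hlnM x hxe hxM with h1 | h1
            · rw [h1, kf_zero_left]
            · rw [h1]; exact hus x hx
        refine ⟨⟨e, heW⟩, fun w => l w.1, ⟨l, hlL, hls, rfl⟩, fun w => (l + u) w.1,
          ⟨l + u, L.add_mem hlL hu, hls.add hus, rfl⟩, ?_, hle, ?_, ?_⟩
        · funext w
          show l w.1 + (l w.1 + u w.1) = u w.1
          rw [← add_assoc, k_add_self, zero_add]
        · show l e + u e = z
          rw [hle, hue, add_zero]
        · intro w hw
          have hwe : w.1 ≠ e := fun h0 => hw (Subtype.ext h0)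
          rcases hlnM w.1 hwe (w.2 M hM) with h1 | h1
          · exact Or.inl h1
          · right
            show l w.1 + u w.1 = 0
            rw [h1, k_add_self]
  · -- part
    rintro u Y ⟨u', F, h1, h2, h3, h4, h5, h6, h7, h8⟩ k ⟨k', hk', hks, rfl⟩ hle
    have hle' : ∀ v, u' v ≠ 0 → k' v = 0 ∨ k' v = u' v := by
      intro v hv
      by_cases hvW : v ∈ Set.range (Subtype.val : W Q → V)
      · obtain ⟨w, rfl⟩ := hvW
        have := hle w (by rw [h3]; exact hv)
        rw [h3] at this
        exact this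
      · have hne := sg_ne_zero (Q := Q) (h := h) hl (hr v hvW)
        rcases (kf_eq_zero_iff _ _ hne).1 (h2 v hvW) with h9 | h9
        · exact absurd h9 hv
        · rcases (kf_eq_zero_iff _ _ hne).1 (hks v hvW) with h10 | h10
          · exact Or.inl h10
          · right; rw [h9, h10]
    obtain ⟨k, hk, k1, k2, k3, -, -⟩ := hS.part u' F h5 k' hk' hle'
    have hsm : Sm D Q h k := by
      refine h2.of_le ?_
      intro v hv
      by_cases huv : u' v = 0
      · left
        refine k2 v huv ?_
        intro hvF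
        exact hv ((mem_range_iff Q v).2 (h7 v hvF))
      · exact k3 v huv
    refine ⟨fun w => k w.1, ⟨k, hk, hsm, rfl⟩, ?_, ?_, ?_⟩
    · intro w hw
      exact k1 w.1 ((h8 w).1 hw)
    · intro w hw hwY
      rw [h3] at hw
      exact k2 w.1 hw (fun h0 => hwY ((h8 w).2 h0))
    · intro w hw
      rw [h3] at hw ⊢
      exact k3 w.1 hw
  · -- mono
    rintro u Y ⟨u', F, h1, h2, h3, h4, h5, h6, h7, h8⟩ hirr a ⟨k', hk', hks, rfl⟩ haz ha0 - hle hoff
    have hle' : ∀ v, u' v ≠ 0 → k' v = 0 ∨ k' v = u' v := by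
      intro v hv
      by_cases hvW : v ∈ Set.range (Subtype.val : W Q → V)
      · obtain ⟨w, rfl⟩ := hvW
        have := hle w (by rw [h3]; exact hv)
        rw [h3] at this
        exact this
      · have hne := sg_ne_zero (Q := Q) (h := h) hl (hr v hvW)
        rcases (kf_eq_zero_iff _ _ hne).1 (h2 v hvW) with h9 | h9
        · exact absurd h9 hv
        · rcases (kf_eq_zero_iff _ _ hne).1 (hks v hvW) with h10 | h10
          · exact Or.inl h10
          · right; rw [h9, h10]
    obtain ⟨k, hk, k1, k2, k3, ⟨F1, hF1, hS1⟩, ⟨F2, hF2, hS2⟩⟩ := hS.part u' F h5 k' hk' hle'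
    have hsm : Sm D Q h k := by
      refine h2.of_le ?_
      intro v hv
      by_cases huv : u' v = 0
      · left
        refine k2 v huv ?_
        intro hvF
        exact hv ((mem_range_iff Q v).2 (h7 v hvF))
      · exact k3 v huv
    have hke : k e = 0 := k2 e h4 h6
    -- the word of the minor is the restriction of `k` or `k + u'`
    have hd : ∀ w : W Q, k' w.1 + k w.1 = 0 ∨ k' w.1 + k w.1 = u' w.1 := by
      intro w
      by_cases huw : u' w.1 = 0
      · left
        by_cases hwF : w.1 ∈ F
        · rw [k1 w.1 hwF, k_add_self]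
        · rw [k2 w.1 huw hwF, add_zero]
          exact hoff w (by rw [h3]; exact huw) (fun h0 => hwF ((h8 w).1 h0))
      · rcases hle' w.1 huw with h9 | h9 <;> rcases k3 w.1 huw with h10 | h10 <;> rw [h9, h10]
        · exact Or.inl (add_zero _)
        · exact Or.inr (zero_add _)
        · exact Or.inr (add_zero _)
        · exact Or.inl (k_add_self _)
    have fin : ∀ (kk : V → K) (F' : Finset V), kk ∈ L → Sm D Q h kk → kk e = 0 → F' ⊆ F →
        SL kk F' → (fun w : W Q => k' w.1) = (fun w : W Q => kk w.1) →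
        (∃ g, Splits (N L D Q h) (fun w : W Q => k' w.1) g) ∨
          ∃ Y', Y' ⊆ Y ∧ Y'.Nonempty ∧ SB L e D Q h SL (fun w : W Q => k' w.1) Y' := by
      intro kk F' hkk hkks hkke hF' hSL heq
      by_cases hF0 : F' = ∅
      · left
        have hzf : ZFree kk := zfree_lift hP hQ hl hkks (by rw [← heq]; exact haz)
        have hne : kk ≠ 0 := by
          rintro rfl
          apply ha0
          rw [heq]
          rfl
        obtain ⟨g, hg⟩ := hS.wc kk (hF0 ▸ hSL) hzf hne
        rw [heq]
        exact split_down hiso hP hQ hl hh heW hkks hkke hg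
      · right
        have hFW : ∀ v ∈ F', ∀ M ∈ Q, v ∉ M := fun v hv => h7 v (hF' hv)
        refine ⟨Finset.univ.filter fun w : W Q => w.1 ∈ F', ?_, ?_, kk, F', hkk, hkks, heq, hkke,
          hSL, fun h0 => h6 (hF' h0), hFW, ?_⟩
        · intro w hw
          exact (h8 w).2 (hF' (Finset.mem_filter.1 hw).2)
        · obtain ⟨v, hv⟩ := Finset.nonempty_iff_ne_empty.2 hF0
          exact ⟨⟨v, hFW v hv⟩, Finset.mem_filter.2 ⟨Finset.mem_univ _, hv⟩⟩
        · intro w
          simp
    have hsum : (fun w : W Q => k' w.1 + k w.1) ∈ N L D Q h :=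
      ⟨k' + k, L.add_mem hk' hk, Sm.add hks hsm, rfl⟩
    rcases hirr _ hsum (fun w => by rw [h3]; exact hd w) with h9 | h9
    · refine fin k F1 hk hsm hke hF1 hS1 ?_
      funext w
      have h10 : k' w.1 + k w.1 = 0 := congrFun h9 w
      have h11 : k' w.1 + k w.1 + k w.1 = k w.1 := by rw [h10, zero_add]
      rwa [add_assoc, k_add_self, add_zero] at h11
    · refine fin (k + u') F2 (L.add_mem hk h1) (hsm.add h2)
        (by rw [Pi.add_apply, hke, h4, add_zero]) hF2 hS2 ?_
      funext w
      have h10 : k' w.1 + k w.1 = u' w.1 := by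
        have := congrFun h9 w
        rw [h3] at this
        exact this
      show k' w.1 = k w.1 + u' w.1
      rw [← h10, add_comm (k' w.1), ← add_assoc, k_add_self, zero_add]

end Pool.Agent.H66.FQ
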